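import Mathlib

/-!
Splitting off the prime factors `l` with `gcd (n, l (l - 1)) = 1`, and extraction of `n`-th roots
modulo the square of that part.
-/

set_option autoImplicit false

namespace Pool.Agent.U792.G2

theorem exists_split (n : ℕ) (hn : n ≠ 0) (U : ℕ) (hU : U ≠ 0) :
    ∃ D E : ℕ, U = D * E ∧ (∀ l : ℕ, l.Prime → l ∣ D → Nat.Coprime (l * (l - 1)) n) ∧
      (∀ l : ℕ, l.Prime → l ∣ E → 1 < Nat.gcd n (l * (l - 1))) := by
  induction U using induction_on_primes with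
  | zero => exact absurd rfl hU
  | one =>
    refine ⟨1, 1, rfl, ?_, ?_⟩
    · intro l hl h
      exact absurd (Nat.dvd_one.1 h) hl.ne_one
    · intro l hl h
      exact absurd (Nat.dvd_one.1 h) hl.ne_one
  | prime_mul p a hp ih =>
    have ha : a ≠ 0 := by
      rintro rfl
      simp at hU
    obtain ⟨D, E, h1, h2, h3⟩ := ih ha
    by_cases hc : Nat.Coprime (p * (p - 1)) n
    · refine ⟨p * D, E, by rw [h1, mul_assoc], ?_, h3⟩
      intro l hl hd
      rcases (hl.dvd_mul).1 hd with h4 | h4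
      · rw [(Nat.prime_dvd_prime_iff_eq hl hp).1 h4]
        exact hc
      · exact h2 l hl h4
    · refine ⟨D, p * E, by rw [h1]; ring, h2, ?_⟩
      intro l hl hd
      rcases (hl.dvd_mul).1 hd with h4 | h4
      · rw [(Nat.prime_dvd_prime_iff_eq hl hp).1 h4]
        have h5 : 0 < Nat.gcd n (p * (p - 1)) := Nat.gcd_pos_of_pos_left _ (Nat.pos_of_ne_zero hn)
        have h6 : Nat.gcd n (p * (p - 1)) ≠ 1 := fun h7 => hc (Nat.Coprime.symm h7)
        omega
      · exact h3 l hl h4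

theorem totient_coprime {D n : ℕ} (hD : ∀ l : ℕ, l.Prime → l ∣ D → Nat.Coprime (l * (l - 1)) n) :
    Nat.Coprime (D ^ 2).totient n := by
  rw [Nat.totient_eq_div_primeFactors_mul]
  refine Nat.Coprime.mul_left ?_ ?_
  · refine Nat.Coprime.coprime_dvd_left (Nat.div_dvd_of_dvd (Nat.prod_primeFactors_dvd _)) ?_
    refine Nat.Coprime.pow_left _ ?_
    refine Nat.coprime_of_dvd ?_
    intro l hl h1 h2
    have h3 := Nat.Coprime.coprime_mul_right (hD l hl h1)
    exact hl.ne_one (Nat.Coprime.eq_one_of_dvd h3 h2)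
  · refine Nat.Coprime.prod_left ?_
    intro l hl
    rw [Nat.primeFactors_pow _ (by norm_num)] at hl
    exact Nat.Coprime.coprime_mul_left (hD l (Nat.prime_of_mem_primeFactors hl)
      (Nat.dvd_of_mem_primeFactors hl))

theorem dvd_sub_of_dvd_pow_sub {M n : ℕ} (hM : M ≠ 0) (hc : Nat.Coprime M.totient n) {a b : ℤ}
    (ha : IsCoprime (M : ℤ) a) (hb : IsCoprime (M : ℤ) b) (h : (M : ℤ) ∣ a ^ n - b ^ n) :
    (M : ℤ) ∣ a - b := by
  have : NeZero M := ⟨hM⟩
  obtain ⟨ua, hua⟩ := (ZMod.coe_int_isUnit_iff_isCoprime a M).2 ha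
  obtain ⟨ub, hub⟩ := (ZMod.coe_int_isUnit_iff_isCoprime b M).2 hb
  have hcard : (Nat.card (ZMod M)ˣ).Coprime n := by
    rw [Nat.card_eq_fintype_card, ZMod.card_units_eq_totient]
    exact hc
  have hpow : ua ^ n = ub ^ n := by
    ext
    push_cast
    rw [hua, hub]
    have h1 := (ZMod.intCast_zmod_eq_zero_iff_dvd (a ^ n - b ^ n) M).2 h
    push_cast at h1
    exact sub_eq_zero.1 h1
  have hinj := (powCoprime hcard).injective (a₁ := ua) (a₂ := ub) hpow
  have h2 : ((a - b : ℤ) : ZMod M) = 0 := by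
    push_cast
    rw [← hua, ← hub, hinj, sub_self]
  exact (ZMod.intCast_zmod_eq_zero_iff_dvd (a - b) M).1 h2

end Pool.Agent.U792.G2
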