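import Mathlib

/-!
`x ^ 2 + w ^ 2 = z ^ r` with `x`, `w` coprime and `r` odd: `x + i w` is an `r`-th power in the Gaussian integers.
-/

set_option autoImplicit false

namespace Pool.Agent.U792.G2


theorem odd_of_sq_add {x w z : ℤ} {r : ℕ} (hr : 2 ≤ r) (hxw : IsCoprime x w)
    (h : x ^ 2 + w ^ 2 = z ^ r) : Odd z := by
  by_contra hz
  rw [Int.not_odd_iff_even] at hz
  obtain ⟨t, ht⟩ := hz
  have h4 : (4 : ℤ) ∣ z ^ r := by
    obtain ⟨s, rfl⟩ := Nat.exists_eq_add_of_le hr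
    rw [pow_add]
    exact Dvd.dvd.mul_right ⟨t ^ 2, by rw [ht]; ring⟩ _
  rw [← h] at h4
  rcases Int.even_or_odd x with hx | hx <;> rcases Int.even_or_odd w with hw | hw
  · have h2x : (2 : ℤ) ∣ x := hx.two_dvd
    have h2w : (2 : ℤ) ∣ w := hw.two_dvd
    have := hxw.isUnit_of_dvd' h2x h2w
    rw [Int.isUnit_iff] at this
    omega
  · obtain ⟨a, rfl⟩ := hx
    obtain ⟨b, rfl⟩ := hw
    obtain ⟨c, hc⟩ := h4
    have : (a + a) ^ 2 + (2 * b + 1) ^ 2 = 4 * (a ^ 2 + b ^ 2 + b) + 1 := by ring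
    omega
  · obtain ⟨a, rfl⟩ := hx
    obtain ⟨b, rfl⟩ := hw
    obtain ⟨c, hc⟩ := h4
    have : (2 * a + 1) ^ 2 + (b + b) ^ 2 = 4 * (a ^ 2 + b ^ 2 + a) + 1 := by ring
    omega
  · obtain ⟨a, rfl⟩ := hx
    obtain ⟨b, rfl⟩ := hw
    obtain ⟨c, hc⟩ := h4
    have : (2 * a + 1) ^ 2 + (2 * b + 1) ^ 2 = 4 * (a ^ 2 + b ^ 2 + a + b) + 2 := by ring
    omega

theorem unit_aux (a b : ℤ) (h1 : a * a + b * b = 1) :
    (a * a - b * b) * (a * a - b * b) - (2 * a * b) * (2 * a * b) = 1 ∧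
      2 * (a * a - b * b) * (2 * a * b) = 0 := by
  have ha1 : a ≤ 1 := by nlinarith
  have ha2 : -1 ≤ a := by nlinarith
  have hb1 : b ≤ 1 := by nlinarith
  have hb2 : -1 ≤ b := by nlinarith
  interval_cases a <;> interval_cases b <;> omega

theorem unit_pow_four (u : GaussianIntˣ) : (u : GaussianInt) ^ 4 = 1 := by
  have h1 : (u : GaussianInt).norm = 1 := (Zsqrtd.norm_eq_one_iff' (by norm_num) _).2 u.isUnit
  rw [Zsqrtd.norm_def] at h1
  set a := (u : GaussianInt).re with ha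
  set b := (u : GaussianInt).im with hb
  have hu : (u : GaussianInt) = ⟨a, b⟩ := by
    rw [ha, hb]
  have h1' : a * a + b * b = 1 := by linear_combination h1
  rw [hu]
  have h2 : (⟨a, b⟩ : GaussianInt) ^ 4 = ⟨(a * a - b * b) * (a * a - b * b) - (2 * a * b) * (2 * a * b),
      2 * (a * a - b * b) * (2 * a * b)⟩ := by
    rw [Zsqrtd.ext_iff]
    constructor
    · simp only [pow_succ, pow_zero, one_mul, Zsqrtd.re_mul, Zsqrtd.im_mul]
      ring
    · simp only [pow_succ, pow_zero, one_mul, Zsqrtd.re_mul, Zsqrtd.im_mul]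
      ring
  have h3 := unit_aux a b h1'
  rw [h2, Zsqrtd.ext_iff]
  exact h3

theorem unit_is_pow {r : ℕ} (hr : Odd r) (u : GaussianIntˣ) : (u : GaussianInt) = ((u : GaussianInt) ^ r) ^ r := by
  obtain ⟨k, rfl⟩ := hr
  rw [← pow_mul]
  have : (2 * k + 1) * (2 * k + 1) = 4 * (k * k + k) + 1 := by ring
  rw [this, pow_succ, pow_mul, unit_pow_four, one_pow, one_mul]

theorem exists_root {x w z : ℤ} {r : ℕ} (hr : 2 ≤ r) (hro : Odd r) (hxw : IsCoprime x w)
    (h : x ^ 2 + w ^ 2 = z ^ r) : ∃ g : GaussianInt, g ^ r = ⟨x, w⟩ := by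
  obtain ⟨k, hk⟩ := (odd_of_sq_add hr hxw h).pow (n := r)
  obtain ⟨s, t, hst⟩ := hxw
  set a : GaussianInt := ⟨x, w⟩ with ha
  set a' : GaussianInt := ⟨x, -w⟩ with ha'
  have hmul : a * a' = (z : GaussianInt) ^ r := by
    have h1 : ((z : GaussianInt)) ^ r = ((z ^ r : ℤ) : GaussianInt) := by push_cast; rfl
    rw [h1, ← h, ha, ha', Zsqrtd.ext_iff]
    simp only [Zsqrtd.re_mul, Zsqrtd.im_mul, Zsqrtd.re_intCast, Zsqrtd.im_intCast]
    constructor <;> ring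
  have hco : IsCoprime a a' := by
    refine ⟨a' - (k : GaussianInt) * ⟨s, -t⟩, -(k : GaussianInt) * ⟨s, t⟩, ?_⟩
    have h2 : (⟨s, -t⟩ : GaussianInt) * a + ⟨s, t⟩ * a' = 2 := by
      have h5 : (2 : GaussianInt) = ((2 : ℤ) : GaussianInt) := by norm_cast
      rw [ha, ha', h5, Zsqrtd.ext_iff]
      simp only [Zsqrtd.re_mul, Zsqrtd.im_mul, Zsqrtd.re_intCast, Zsqrtd.im_intCast, Zsqrtd.re_add,
        Zsqrtd.im_add]
      constructor
      · linear_combination 2 * hst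
      · ring
    have h3 : a * a' = 2 * (k : GaussianInt) + 1 := by
      rw [hmul]
      have h1 : ((z : GaussianInt)) ^ r = ((z ^ r : ℤ) : GaussianInt) := by push_cast; rfl
      rw [h1, hk]
      push_cast
      rfl
    linear_combination h3 - (k : GaussianInt) * h2
  obtain ⟨d, u, hd⟩ := exists_associated_pow_of_mul_eq_pow' hco hmul
  refine ⟨d * (u : GaussianInt) ^ r, ?_⟩
  rw [mul_pow, ← unit_is_pow hro u, hd]

end Pool.Agent.U792.G2
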