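import Mathlib
import Pool.Agent.U792.G2.Gauss

/-!
The imaginary part of `(u + i v) ^ r`: congruences modulo `v` and modulo `u ^ 2`.
-/

set_option autoImplicit false

namespace Pool.Agent.U792.G2


/-- the imaginary unit -/
def iu : GaussianInt := ⟨0, 1⟩

theorem iu_sq : iu ^ 2 = ((-1 : ℤ) : GaussianInt) := by
  rw [iu, Zsqrtd.ext_iff, sq]
  simp only [Zsqrtd.re_mul, Zsqrtd.im_mul, Zsqrtd.re_intCast, Zsqrtd.im_intCast]
  norm_num

theorem mk_eq (u v : ℤ) : (⟨u, v⟩ : GaussianInt) = (u : GaussianInt) + (v : GaussianInt) * iu := by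
  rw [iu, Zsqrtd.ext_iff]
  simp only [Zsqrtd.re_add, Zsqrtd.im_add, Zsqrtd.re_mul, Zsqrtd.im_mul, Zsqrtd.re_intCast,
    Zsqrtd.im_intCast]
  constructor <;> ring

theorem im_cast_mul_iu (a : ℤ) : ((a : GaussianInt) * iu).im = a := by
  rw [iu]
  simp only [Zsqrtd.im_mul, Zsqrtd.re_intCast, Zsqrtd.im_intCast]
  ring

theorem re_cast_mul_iu (a : ℤ) : ((a : GaussianInt) * iu).re = 0 := by
  rw [iu]
  simp only [Zsqrtd.re_mul, Zsqrtd.re_intCast, Zsqrtd.im_intCast]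
  ring

theorem vi_even (v : ℤ) (k : ℕ) :
    ((v : GaussianInt) * iu) ^ (2 * k) = (((-1) ^ k * v ^ (2 * k) : ℤ) : GaussianInt) := by
  rw [mul_pow, pow_mul iu, iu_sq]
  push_cast
  ring

theorem vi_odd (v : ℤ) (k : ℕ) :
    ((v : GaussianInt) * iu) ^ (2 * k + 1) = (((-1) ^ k * v ^ (2 * k + 1) : ℤ) : GaussianInt) * iu := by
  rw [pow_succ, vi_even]
  push_cast
  ring

theorem im_mod_v (u v : ℤ) (r : ℕ) :
    ∃ c : ℤ, ((⟨u, v⟩ : GaussianInt) ^ r).im = r * u ^ (r - 1) * v - v ^ 2 * c := by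
  obtain ⟨c, hc⟩ := Polynomial.powAddExpansion (u : GaussianInt) ((v : GaussianInt) * iu) r
  refine ⟨c.im, ?_⟩
  have e1 : (u : GaussianInt) ^ r = ((u ^ r : ℤ) : GaussianInt) := by push_cast; rfl
  have e2 : (r : GaussianInt) * (u : GaussianInt) ^ (r - 1) * ((v : GaussianInt) * iu) =
      ((r * u ^ (r - 1) * v : ℤ) : GaussianInt) * iu := by push_cast; ring
  have e3 : c * ((v : GaussianInt) * iu) ^ 2 = c * ((-v ^ 2 : ℤ) : GaussianInt) := by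
    rw [mul_pow, iu_sq]
    push_cast
    ring
  rw [mk_eq, hc, e2, e3, e1, Zsqrtd.im_add, Zsqrtd.im_add, im_cast_mul_iu, Zsqrtd.im_intCast,
    Zsqrtd.im_mul, Zsqrtd.re_intCast, Zsqrtd.im_intCast]
  ring

theorem im_mod_u (u v : ℤ) (k : ℕ) :
    ∃ c d : ℤ, ((⟨u, v⟩ : GaussianInt) ^ (2 * k + 1)).im = (-1) ^ k * v ^ (2 * k + 1) + u ^ 2 * c ∧
      ((⟨u, v⟩ : GaussianInt) ^ (2 * k + 1)).re = u * d := by
  obtain ⟨c, hc⟩ := Polynomial.powAddExpansion ((v : GaussianInt) * iu) (u : GaussianInt) (2 * k + 1)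
  refine ⟨c.im, (2 * k + 1) * ((-1) ^ k * v ^ (2 * k)) + c.re * u, ?_⟩
  have e2 : ((2 * k + 1 : ℕ) : GaussianInt) * ((v : GaussianInt) * iu) ^ (2 * k + 1 - 1) * (u : GaussianInt) =
      (((2 * k + 1) * ((-1) ^ k * v ^ (2 * k)) * u : ℤ) : GaussianInt) := by
    rw [Nat.add_sub_cancel, vi_even]
    push_cast
    ring
  have e3 : c * (u : GaussianInt) ^ 2 = c * ((u ^ 2 : ℤ) : GaussianInt) := by push_cast; rfl
  have hg : (⟨u, v⟩ : GaussianInt) = (v : GaussianInt) * iu + (u : GaussianInt) := by rw [mk_eq, add_comm]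
  rw [hg, hc, e2, e3, vi_odd]
  constructor
  · rw [Zsqrtd.im_add, Zsqrtd.im_add, im_cast_mul_iu, Zsqrtd.im_intCast,
      Zsqrtd.im_mul, Zsqrtd.re_intCast, Zsqrtd.im_intCast]
    ring
  · rw [Zsqrtd.re_add, Zsqrtd.re_add, re_cast_mul_iu, Zsqrtd.re_intCast,
      Zsqrtd.re_mul, Zsqrtd.re_intCast, Zsqrtd.im_intCast]
    ring

/-- The shape of a solution of `x ^ 2 + (y ^ n) ^ 2 = z ^ r`, `r = 2 k + 1`. -/
theorem shape {n k : ℕ} (hn : Odd n) (hk : 1 ≤ k) {x y z : ℤ} (hxy : IsCoprime x y)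
    (hry : IsCoprime ((2 * k + 1 : ℕ) : ℤ) y) (h : x ^ 2 + y ^ (2 * n) = z ^ (2 * k + 1)) :
    ∃ u v Y W : ℤ, (⟨u, v⟩ : GaussianInt) ^ (2 * k + 1) = ⟨x, y ^ n⟩ ∧ z = u ^ 2 + v ^ 2 ∧
      IsCoprime u v ∧ v = W ^ n ∧ v * Y ^ n = y ^ n ∧ IsCoprime v (Y ^ n) ∧ u ∣ x ∧
      u ^ 2 ∣ Y ^ n - (-1) ^ k * v ^ (2 * k) := by
  have hxw : IsCoprime x (y ^ n) := hxy.pow_right
  have h' : x ^ 2 + (y ^ n) ^ 2 = z ^ (2 * k + 1) := by
    rw [← h, ← pow_mul, mul_comm n 2]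
  obtain ⟨g, hg⟩ := exists_root (by omega) ⟨k, rfl⟩ hxw h'
  obtain ⟨u, v⟩ := g
  have hz : z = u ^ 2 + v ^ 2 := by
    have h1 := congrArg Zsqrtd.normMonoidHom hg
    rw [map_pow] at h1
    have h2 : ∀ a b : ℤ, Zsqrtd.normMonoidHom (⟨a, b⟩ : GaussianInt) = a ^ 2 + b ^ 2 := by
      intro a b
      show Zsqrtd.norm _ = _
      rw [Zsqrtd.norm_def]
      ring
    rw [h2, h2, h'] at h1
    exact ((Odd.strictMono_pow (⟨k, rfl⟩ : Odd (2 * k + 1))).injective h1).symm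
  have huv : IsCoprime u v := by
    rw [Int.isCoprime_iff_gcd_eq_one]
    have h1 : ((Int.gcd u v : ℤ) : GaussianInt) ∣ (⟨u, v⟩ : GaussianInt) := by
      rw [Zsqrtd.intCast_dvd]
      exact ⟨Int.gcd_dvd_left .., Int.gcd_dvd_right ..⟩
    have h2 : ((Int.gcd u v : ℤ) : GaussianInt) ∣ (⟨x, y ^ n⟩ : GaussianInt) := by
      rw [← hg]
      exact dvd_pow h1 (by omega)
    rw [Zsqrtd.intCast_dvd] at h2
    have h3 := hxw.isUnit_of_dvd' h2.1 h2.2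
    rw [Int.isUnit_iff] at h3
    omega
  obtain ⟨c, hc⟩ := im_mod_v u v (2 * k + 1)
  obtain ⟨c', d, hc', hd⟩ := im_mod_u u v k
  rw [hg] at hc hc' hd
  rw [Nat.add_sub_cancel] at hc
  simp only at hc hc' hd
  have hfac : v * (((2 * k + 1 : ℕ) : ℤ) * u ^ (2 * k) - v * c) = y ^ n := by
    rw [hc]
    ring
  have hvr : IsCoprime v ((2 * k + 1 : ℕ) : ℤ) :=
    IsCoprime.of_isCoprime_of_dvd_left (hry.symm.pow_left (m := n)) ⟨_, hfac.symm⟩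
  have hco : IsCoprime v (((2 * k + 1 : ℕ) : ℤ) * u ^ (2 * k) - v * c) := by
    have h1 : IsCoprime v (((2 * k + 1 : ℕ) : ℤ) * u ^ (2 * k)) :=
      hvr.mul_right huv.symm.pow_right
    have h2 := h1.add_mul_left_right (-c)
    rwa [mul_neg, ← sub_eq_add_neg] at h2
  obtain ⟨⟨W, hW⟩, Y, hY⟩ := Int.eq_pow_of_mul_eq_pow_odd hco hn hfac
  rw [hY] at hfac hco
  refine ⟨u, v, Y, W, hg, hz, huv, hW, hfac, hco, ⟨d, hd⟩, ?_⟩
  have h5 : u ^ 2 ∣ v * (Y ^ n - (-1) ^ k * v ^ (2 * k)) := by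
    refine ⟨c', ?_⟩
    rw [mul_sub, hfac, hc']
    ring
  exact (huv.pow_left).dvd_of_dvd_mul_left h5

end Pool.Agent.U792.G2
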