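import Mathlib
import Pool.Agent.U792.G2.Seq

/-!
Size of the imaginary part of `(u + i v) ^ r`.
-/

set_option autoImplicit false

namespace Pool.Agent.U792.G2


theorem im_pow_le (z : ℂ) (m : ℕ) : |(z ^ (m + 1)).im| ≤ (m + 1) * |z.im| * ‖z‖ ^ m := by
  induction m with
  | zero => simp
  | succ m ih =>
    have h1 : (z ^ (m + 1 + 1)).im = (z ^ (m + 1)).re * z.im + (z ^ (m + 1)).im * z.re := by
      rw [pow_succ, Complex.mul_im]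
    rw [h1]
    have h2 : |(z ^ (m + 1)).re| ≤ ‖z‖ ^ (m + 1) := by
      have := Complex.abs_re_le_norm (z ^ (m + 1))
      rwa [norm_pow] at this
    have h3 := Complex.abs_re_le_norm z
    calc |(z ^ (m + 1)).re * z.im + (z ^ (m + 1)).im * z.re|
        ≤ |(z ^ (m + 1)).re * z.im| + |(z ^ (m + 1)).im * z.re| := abs_add_le _ _
      _ = |(z ^ (m + 1)).re| * |z.im| + |(z ^ (m + 1)).im| * |z.re| := by rw [abs_mul, abs_mul]
      _ ≤ ‖z‖ ^ (m + 1) * |z.im| + ((m + 1) * |z.im| * ‖z‖ ^ m) * ‖z‖ := by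
          gcongr
      _ = ((m + 1 : ℕ) + 1) * |z.im| * ‖z‖ ^ (m + 1) := by
          push_cast
          ring

theorem second_order (a b : ℂ) (j : ℕ) :
    ‖(a + b) ^ (j + 2) - a ^ (j + 2) - (j + 2) * a ^ (j + 1) * b‖ ≤
      (j + 2) * (j + 1) / 2 * ‖b‖ ^ 2 * (‖a‖ + ‖b‖) ^ j := by
  induction j with
  | zero =>
    have h1 : (a + b) ^ (0 + 2) - a ^ (0 + 2) - ((0 : ℕ) + 2) * a ^ (0 + 1) * b = b ^ 2 := by
      push_cast
      ring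
    rw [h1, norm_pow]
    norm_num
  | succ j ih =>
    have h1 : (a + b) ^ (j + 1 + 2) - a ^ (j + 1 + 2) - ((j + 1 : ℕ) + 2) * a ^ (j + 1 + 1) * b =
        (a + b) * ((a + b) ^ (j + 2) - a ^ (j + 2) - (j + 2) * a ^ (j + 1) * b) +
          (j + 2) * a ^ (j + 1) * b ^ 2 := by
      push_cast
      ring
    rw [h1]
    have h2 : ‖a + b‖ ≤ ‖a‖ + ‖b‖ := norm_add_le _ _
    have h3 : ‖((j : ℂ) + 2) * a ^ (j + 1) * b ^ 2‖ = (j + 2) * ‖a‖ ^ (j + 1) * ‖b‖ ^ 2 := by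
      rw [norm_mul, norm_mul, norm_pow, norm_pow]
      congr 2
      have : ((j : ℂ) + 2) = ((j + 2 : ℕ) : ℂ) := by push_cast; ring
      rw [this, Complex.norm_natCast]
      push_cast
      ring
    have h4 : ‖a‖ ^ (j + 1) ≤ (‖a‖ + ‖b‖) ^ (j + 1) := by
      have := norm_nonneg b
      gcongr
      linarith
    calc _ ≤ ‖(a + b) * ((a + b) ^ (j + 2) - a ^ (j + 2) - (j + 2) * a ^ (j + 1) * b)‖ +
          ‖((j : ℂ) + 2) * a ^ (j + 1) * b ^ 2‖ := norm_add_le _ _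
      _ ≤ (‖a‖ + ‖b‖) * ((j + 2) * (j + 1) / 2 * ‖b‖ ^ 2 * (‖a‖ + ‖b‖) ^ j) +
          (j + 2) * (‖a‖ + ‖b‖) ^ (j + 1) * ‖b‖ ^ 2 := by
          rw [h3, norm_mul]
          gcongr
      _ = ((j + 1 : ℕ) + 2) * ((j + 1 : ℕ) + 1) / 2 * ‖b‖ ^ 2 * (‖a‖ + ‖b‖) ^ (j + 1) := by
          push_cast
          ring

theorem toC_im (u v : ℤ) (m : ℕ) :
    (((⟨u, v⟩ : GaussianInt) ^ m).im : ℝ) = (((u : ℂ) + (v : ℂ) * Complex.I) ^ m).im := by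
  have h1 : GaussianInt.toComplex (⟨u, v⟩ : GaussianInt) = (u : ℂ) + (v : ℂ) * Complex.I := by
    rw [GaussianInt.toComplex_def]
  rw [← h1, ← map_pow]
  simp

theorem sum_norm_sq (u v : ℤ) : ‖(u : ℂ) + (v : ℂ) * Complex.I‖ ^ 2 = ((u ^ 2 + v ^ 2 : ℤ) : ℝ) := by
  rw [← Complex.normSq_eq_norm_sq, Complex.normSq_apply]
  simp
  ring

theorem size_F {u v F : ℤ} {k : ℕ} (hv : v ≠ 0)
    (hF : v * F = ((⟨u, v⟩ : GaussianInt) ^ (2 * k + 1)).im) :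
    |(F : ℝ)| ≤ (2 * k + 1) * ((u ^ 2 + v ^ 2 : ℤ) : ℝ) ^ k := by
  have h1 : ((v * F : ℤ) : ℝ) = (((u : ℂ) + (v : ℂ) * Complex.I) ^ (2 * k + 1)).im := by
    rw [hF, toC_im]
  have h2 := im_pow_le ((u : ℂ) + (v : ℂ) * Complex.I) (2 * k)
  rw [← h1] at h2
  have h3 : ((u : ℂ) + (v : ℂ) * Complex.I).im = v := by simp
  rw [h3, pow_mul, sum_norm_sq] at h2
  push_cast at h2 ⊢
  rw [abs_mul] at h2
  have h4 : 0 < |(v : ℝ)| := abs_pos.2 (by exact_mod_cast hv)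
  have h5 : |(v : ℝ)| * |(F : ℝ)| ≤ |(v : ℝ)| * ((2 * k + 1) * ((u : ℝ) ^ 2 + (v : ℝ) ^ 2) ^ k) := by
    calc _ ≤ _ := h2
      _ = _ := by ring
  exact le_of_mul_le_mul_left h5 h4

theorem size_diff {u v F : ℤ} {q : ℕ}
    (hF : v * F = ((⟨u, v⟩ : GaussianInt) ^ (2 * (q + 1) + 1)).im)
    (huv : 2 * (2 * ((q : ℝ) + 1) + 1) * |(u : ℝ)| ≤ |(v : ℝ)|) :
    |((F : ℝ) - (-1) ^ (q + 1) * (v : ℝ) ^ (2 * (q + 1)))| * (v : ℝ) ^ 2 ≤
      (2 * ((q : ℝ) + 1) + 1) ^ 2 * (u : ℝ) ^ 2 * (v : ℝ) ^ (2 * (q + 1)) := by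
  have h1 : ((v * F : ℤ) : ℝ) = (((u : ℂ) + (v : ℂ) * Complex.I) ^ (2 * (q + 1) + 1)).im := by
    rw [hF, toC_im]
  have h2 := second_order ((v : ℂ) * Complex.I) (u : ℂ) (2 * q + 1)
  have e0 : 2 * q + 1 + 2 = 2 * (q + 1) + 1 := by ring
  have e0' : 2 * q + 1 + 1 = 2 * (q + 1) := by ring
  rw [e0, e0'] at h2
  have e1 : ((v : ℂ) * Complex.I) ^ (2 * (q + 1)) = (((-1) ^ (q + 1) * (v : ℝ) ^ (2 * (q + 1)) : ℝ) : ℂ) := by
    rw [mul_pow, pow_mul Complex.I, Complex.I_sq]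
    push_cast
    ring
  have e2 : ((v : ℂ) * Complex.I) ^ (2 * (q + 1) + 1) =
      (((-1) ^ (q + 1) * (v : ℝ) ^ (2 * (q + 1) + 1) : ℝ) : ℂ) * Complex.I := by
    rw [pow_succ ((v : ℂ) * Complex.I), e1]
    push_cast
    ring
  have h3 := (Complex.abs_im_le_norm _).trans h2
  have h4 : (((v : ℂ) * Complex.I + (u : ℂ)) ^ (2 * (q + 1) + 1) -
      ((v : ℂ) * Complex.I) ^ (2 * (q + 1) + 1) -
      ((2 * q + 1 : ℕ) + 2) * ((v : ℂ) * Complex.I) ^ (2 * (q + 1)) * (u : ℂ)).im =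
      (v : ℝ) * ((F : ℝ) - (-1) ^ (q + 1) * (v : ℝ) ^ (2 * (q + 1))) := by
    have e3 : (((2 * q + 1 : ℕ) : ℂ) + 2) * ((v : ℂ) * Complex.I) ^ (2 * (q + 1)) * (u : ℂ) =
        ((((2 * q + 1 : ℕ) + 2 : ℝ) * ((-1) ^ (q + 1) * (v : ℝ) ^ (2 * (q + 1))) * (u : ℝ) : ℝ) : ℂ) := by
      rw [e1]
      push_cast
      ring
    rw [e3, e2, Complex.sub_im, Complex.sub_im, Complex.ofReal_im, add_comm ((v : ℂ) * Complex.I),
      ← h1, Complex.mul_I_im, Complex.ofReal_re]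
    push_cast
    ring
  rw [h4] at h3
  have e5 : ‖(v : ℂ) * Complex.I‖ = |(v : ℝ)| := by
    rw [norm_mul, Complex.norm_I, mul_one, Complex.norm_intCast]
  have e6 : ‖(u : ℂ)‖ = |(u : ℝ)| := Complex.norm_intCast u
  rw [e5, e6, abs_mul] at h3
  have h5 : (|(v : ℝ)| + |(u : ℝ)|) ^ (2 * q + 1) ≤ 2 * |(v : ℝ)| ^ (2 * q + 1) := by
    have hr : (0 : ℝ) < 2 * (2 * ((q : ℝ) + 1) + 1) := by positivity
    have h6 : |(v : ℝ)| + |(u : ℝ)| ≤ |(v : ℝ)| * Real.exp (1 / (2 * (2 * ((q : ℝ) + 1) + 1))) := by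
      have h7 := Real.add_one_le_exp (1 / (2 * (2 * ((q : ℝ) + 1) + 1)))
      have h8 : |(u : ℝ)| ≤ |(v : ℝ)| * (1 / (2 * (2 * ((q : ℝ) + 1) + 1))) := by
        rw [mul_one_div, le_div_iff₀ hr]
        linarith
      have := abs_nonneg (v : ℝ)
      nlinarith
    calc (|(v : ℝ)| + |(u : ℝ)|) ^ (2 * q + 1)
        ≤ (|(v : ℝ)| * Real.exp (1 / (2 * (2 * ((q : ℝ) + 1) + 1)))) ^ (2 * q + 1) := by
          gcongr
      _ = |(v : ℝ)| ^ (2 * q + 1) * Real.exp (((2 * q + 1 : ℕ) : ℝ) * (1 / (2 * (2 * ((q : ℝ) + 1) + 1)))) := by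
          rw [mul_pow, ← Real.exp_nat_mul]
      _ ≤ |(v : ℝ)| ^ (2 * q + 1) * 2 := by
          gcongr
          have h9 : (((2 * q + 1 : ℕ) : ℝ) * (1 / (2 * (2 * ((q : ℝ) + 1) + 1)))) ≤ 1 / 2 := by
            rw [mul_one_div, div_le_div_iff₀ hr (by norm_num)]
            push_cast
            linarith
          calc _ ≤ Real.exp (1 / 2) := Real.exp_le_exp.2 h9
            _ ≤ 2 := by
              have h10 : Real.exp (1 / 2) * Real.exp (1 / 2) ≤ 4 := by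
                rw [← Real.exp_add]
                norm_num
                have := Real.exp_one_lt_d9
                linarith
              nlinarith [Real.exp_pos (1 / 2)]
      _ = _ := by ring
  set X : ℝ := (F : ℝ) - (-1) ^ (q + 1) * (v : ℝ) ^ (2 * (q + 1)) with hX
  have h6 : |(v : ℝ)| * |X| ≤ (2 * ((q : ℝ) + 1) + 1) * (2 * ((q : ℝ) + 1)) * (u : ℝ) ^ 2 *
      |(v : ℝ)| ^ (2 * q + 1) := by
    calc |(v : ℝ)| * |X| ≤ _ := h3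
      _ ≤ (((2 * q + 1 : ℕ) : ℝ) + 2) * (((2 * q + 1 : ℕ) : ℝ) + 1) / 2 * |(u : ℝ)| ^ 2 *
          (2 * |(v : ℝ)| ^ (2 * q + 1)) := by
          gcongr
      _ = _ := by
          rw [sq_abs]
          push_cast
          ring
  calc |X| * (v : ℝ) ^ 2 = |(v : ℝ)| * (|(v : ℝ)| * |X|) := by
        rw [← sq_abs (v : ℝ)]
        ring
    _ ≤ |(v : ℝ)| * ((2 * ((q : ℝ) + 1) + 1) * (2 * ((q : ℝ) + 1)) * (u : ℝ) ^ 2 *
          |(v : ℝ)| ^ (2 * q + 1)) := by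
        gcongr
    _ = (2 * ((q : ℝ) + 1) + 1) * (2 * ((q : ℝ) + 1)) * (u : ℝ) ^ 2 *
          (|(v : ℝ)| ^ 2) ^ (q + 1) := by
        ring
    _ = (2 * ((q : ℝ) + 1) + 1) * (2 * ((q : ℝ) + 1)) * (u : ℝ) ^ 2 *
          (v : ℝ) ^ (2 * (q + 1)) := by
        rw [sq_abs, ← pow_mul]
    _ ≤ (2 * ((q : ℝ) + 1) + 1) ^ 2 * (u : ℝ) ^ 2 * (v : ℝ) ^ (2 * (q + 1)) := by
        have h11 : (0 : ℝ) ≤ (v : ℝ) ^ (2 * (q + 1)) := by
          rw [pow_mul]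
          positivity
        have h12 : (2 * ((q : ℝ) + 1) + 1) * (2 * ((q : ℝ) + 1)) ≤ (2 * ((q : ℝ) + 1) + 1) ^ 2 := by
          have : (0 : ℝ) ≤ q := Nat.cast_nonneg q
          nlinarith
        gcongr

end Pool.Agent.U792.G2
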