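import Mathlib
import Pool.Agent.U792.G2.Size
import Pool.Agent.U792.G2.Split

/-!
The main inequality for `x ^ 2 + y ^ (2 n) = z ^ r`.
-/

set_option autoImplicit false

namespace Pool.Agent.U792.G2


theorem two_pow_ge {n : ℕ} (hn : 3 ≤ n) : 2 * n + 1 ≤ 2 ^ n := by
  induction n, hn using Nat.le_induction with
  | base => norm_num
  | succ m hm ih =>
    rw [pow_succ]
    omega

/-- two real numbers of the same sign -/
theorem abs_pow_sub_ge {a b : ℝ} (hab : 0 < a * b) {n : ℕ} (hn : n ≠ 0) :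
    |a - b| * |b| ^ (n - 1) ≤ |a ^ n - b ^ n| := by
  obtain ⟨m, rfl⟩ := Nat.exists_eq_succ_of_ne_zero hn
  rw [Nat.succ_eq_add_one, Nat.add_sub_cancel]
  have key : ∀ a b : ℝ, 0 < a → 0 < b → |a - b| * |b| ^ m ≤ |a ^ (m + 1) - b ^ (m + 1)| := by
    intro a b ha hb
    rw [abs_of_pos hb]
    rcases le_total b a with h | h
    · have h1 : b ^ m ≤ a ^ m := by gcongr
      rw [abs_of_nonneg (sub_nonneg.2 h),
        abs_of_nonneg (sub_nonneg.2 (pow_le_pow_left₀ hb.le h _)), pow_succ, pow_succ]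
      nlinarith
    · have h1 : a ^ m ≤ b ^ m := by gcongr
      rw [abs_of_nonpos (sub_nonpos.2 h),
        abs_of_nonpos (sub_nonpos.2 (pow_le_pow_left₀ ha.le h _)), pow_succ, pow_succ]
      nlinarith
  rcases pos_and_pos_or_neg_and_neg_of_mul_pos hab with ⟨ha, hb⟩ | ⟨ha, hb⟩
  · exact key a b ha hb
  · have h1 := key (-a) (-b) (neg_pos.2 ha) (neg_pos.2 hb)
    rw [abs_neg, neg_sub_neg, abs_sub_comm b a] at h1
    have h2 : |(-a) ^ (m + 1) - (-b) ^ (m + 1)| = |a ^ (m + 1) - b ^ (m + 1)| := by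
      rcases Nat.even_or_odd (m + 1) with h3 | h3
      · rw [h3.neg_pow, h3.neg_pow]
      · rw [h3.neg_pow, h3.neg_pow, neg_sub_neg, abs_sub_comm]
    rwa [h2] at h1

theorem main_aux {n k : ℕ} (hn : Odd n) (hn3 : 3 ≤ n) (hk : 1 ≤ k) (hkn : k ≤ n) {x y z : ℤ}
    (hxy : IsCoprime x y) (hx : x ≠ 0) (hy : 2 ≤ |y|)
    (hry : IsCoprime ((2 * k + 1 : ℕ) : ℤ) y) (h : x ^ 2 + y ^ (2 * n) = z ^ (2 * k + 1)) :
    ∃ E : ℕ, (E : ℤ) ∣ x ∧ (∀ l : ℕ, l.Prime → l ∣ E → 1 < Nat.gcd n (l * (l - 1))) ∧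
      0 < z ∧ (z : ℝ) ≤ 16 * (2 * k + 1) ^ 2 * (E : ℝ) ^ 2 * (z : ℝ) ^ ((k : ℝ) / n) := by
  obtain ⟨u, v, Y, W, hg, hz, huv, hvW, hfac, hco, hux, hmod⟩ := shape hn hk hxy hry h
  have hn0 : n ≠ 0 := by omega
  have hy0 : y ≠ 0 := by
    rintro rfl
    simp at hy
  have hu0 : u ≠ 0 := by
    rintro rfl
    exact hx (zero_dvd_iff.1 hux)
  have hv0 : v ≠ 0 := by
    rintro rfl
    rw [zero_mul] at hfac
    exact hy0 (pow_eq_zero_iff hn0 |>.1 hfac.symm)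
  set V : ℤ := (-1) ^ k * W ^ (2 * k) with hV
  have hsn : ((-1 : ℤ) ^ k) ^ n = (-1) ^ k := by
    rw [← pow_mul, mul_comm, pow_mul, hn.neg_one_pow]
  have hVn : V ^ n = (-1) ^ k * v ^ (2 * k) := by
    rw [hV, mul_pow, hsn, hvW, ← pow_mul, ← pow_mul, mul_comm n]
  rw [← hVn] at hmod
  obtain ⟨D, E, hDE, hD, hE⟩ := exists_split n hn0 u.natAbs (Int.natAbs_ne_zero.2 hu0)
  have hD0 : D ≠ 0 := by
    rintro rfl
    rw [zero_mul] at hDE
    exact hu0 (Int.natAbs_eq_zero.1 hDE)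
  have hE0 : E ≠ 0 := by
    rintro rfl
    rw [mul_zero] at hDE
    exact hu0 (Int.natAbs_eq_zero.1 hDE)
  have hEu : (E : ℤ) ∣ u := by
    rw [Int.natCast_dvd, hDE]
    exact Dvd.intro_left _ rfl
  have hDu : (D : ℤ) ∣ u := by
    rw [Int.natCast_dvd, hDE]
    exact Dvd.intro _ rfl
  have huW : IsCoprime u W := by
    rw [hvW] at huv
    exact (IsCoprime.pow_right_iff (by omega)).1 huv
  have huV : IsCoprime u V := by
    rw [hV]
    refine IsCoprime.mul_right ?_ huW.pow_right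
    exact (isCoprime_one_right.neg_right).pow_right
  have huY : IsCoprime u Y := by
    have h1 : IsCoprime u (V ^ n) := huV.pow_right
    obtain ⟨c, hc⟩ := hmod
    have h2 : Y ^ n = V ^ n + u * (u * c) := by linear_combination hc
    have h3 := h1.add_mul_left_right (u * c)
    rw [← h2] at h3
    exact (IsCoprime.pow_right_iff (by omega)).1 h3
  have hD2Y : IsCoprime ((D ^ 2 : ℕ) : ℤ) Y := by
    push_cast
    exact (IsCoprime.of_isCoprime_of_dvd_left huY hDu).pow_left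
  have hD2V : IsCoprime ((D ^ 2 : ℕ) : ℤ) V := by
    push_cast
    exact (IsCoprime.of_isCoprime_of_dvd_left huV hDu).pow_left
  have hD2 : ((D ^ 2 : ℕ) : ℤ) ∣ Y - V := by
    refine dvd_sub_of_dvd_pow_sub (by positivity) (totient_coprime hD) hD2Y hD2V ?_
    push_cast
    exact (pow_dvd_pow_of_dvd hDu 2).trans hmod
  have hne : Y - V ≠ 0 := by
    intro h0
    have h1 : Y = V := sub_eq_zero.1 h0
    have h2 : v ∣ Y ^ n := by
      rw [h1, hVn]
      exact Dvd.dvd.mul_left (dvd_pow_self v (by omega)) _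
    have h3 : IsUnit v := hco.isUnit_of_dvd' dvd_rfl h2
    have h4 : IsUnit (Y ^ n) := by
      rw [h1, hVn]
      exact ((isUnit_one.neg).pow k).mul (h3.pow _)
    have h5 : IsUnit (y ^ n) := by
      rw [← hfac]
      exact h3.mul h4
    have h6 : IsUnit y := (isUnit_pow_iff hn0).1 h5
    rw [Int.isUnit_iff] at h6
    rcases h6 with rfl | rfl <;> simp at hy
  have hle : ((D : ℝ)) ^ 2 ≤ |(Y : ℝ) - V| := by
    have h1 := Int.le_of_dvd (abs_pos.2 hne) ((dvd_abs _ _).2 hD2)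
    have h2 : (((D ^ 2 : ℕ) : ℤ) : ℝ) ≤ ((|Y - V| : ℤ) : ℝ) := by exact_mod_cast h1
    push_cast at h2
    exact h2
  -- real numbers
  have hzpos : 0 < z := by
    rw [hz]
    positivity
  have hzR : (0 : ℝ) < z := by exact_mod_cast hzpos
  have hzR2 : (z : ℝ) = (u : ℝ) ^ 2 + (v : ℝ) ^ 2 := by
    rw [hz]
    push_cast
    ring
  set ζ : ℝ := (z : ℝ) ^ ((k : ℝ) / n) with hζ
  have hζ0 : 0 < ζ := Real.rpow_pos_of_pos hzR _
  have hζn : ζ ^ n = (z : ℝ) ^ k := by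
    rw [hζ, ← Real.rpow_natCast, ← Real.rpow_mul hzR.le, div_mul_cancel₀ _ (by exact_mod_cast hn0),
      Real.rpow_natCast]
  have hVabs : |(V : ℝ)| ^ n = ((v : ℝ) ^ 2) ^ k := by
    rw [← abs_pow]
    have : ((V : ℝ)) ^ n = (-1) ^ k * (v : ℝ) ^ (2 * k) := by exact_mod_cast hVn
    rw [this, abs_mul, abs_pow, abs_neg, abs_one, one_pow, one_mul, pow_mul, abs_of_nonneg]
    positivity
  have hVle : |(V : ℝ)| ≤ ζ := by
    refine le_of_pow_le_pow_left₀ hn0 hζ0.le ?_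
    rw [hVabs, hζn]
    gcongr
    rw [hzR2]
    nlinarith [sq_nonneg (u : ℝ)]
  have hYle : |(Y : ℝ)| ≤ 2 * ζ := by
    refine le_of_pow_le_pow_left₀ hn0 (by positivity) ?_
    rw [mul_pow, hζn, ← abs_pow]
    have h1 := size_F (F := Y ^ n) (k := k) (u := u) hv0 (by rw [hfac, hg])
    rw [← hz] at h1
    push_cast at h1
    refine h1.trans ?_
    have h2 : ((2 : ℝ) * k + 1) ≤ 2 ^ n := by
      have h3 := two_pow_ge hn3
      have h4 : 2 * k + 1 ≤ 2 ^ n := by omega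
      exact_mod_cast h4
    gcongr
  have huDE : |(u : ℝ)| = D * E := by
    have h1 : |(u : ℝ)| = (u.natAbs : ℝ) := by
      rw [Nat.cast_natAbs]
      push_cast
      rfl
    rw [h1, hDE]
    push_cast
    rfl
  have hu2 : (u : ℝ) ^ 2 = (D : ℝ) ^ 2 * (E : ℝ) ^ 2 := by
    rw [← sq_abs, huDE]
    ring
  have hDpos : (0 : ℝ) < D := by exact_mod_cast Nat.pos_of_ne_zero hD0
  have hEpos : (0 : ℝ) < E := by exact_mod_cast Nat.pos_of_ne_zero hE0
  have hkR : (1 : ℝ) ≤ k := by exact_mod_cast hk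
  refine ⟨E, hEu.trans hux, hE, hzpos, ?_⟩
  by_cases hcase : 2 * (2 * (k : ℝ) + 1) * |(u : ℝ)| ≤ |(v : ℝ)|
  · -- `v` large
    obtain ⟨q, rfl⟩ : ∃ q, k = q + 1 := ⟨k - 1, by omega⟩
    have hcase' := hcase
    push_cast at hcase'
    have h1 := size_diff (F := Y ^ n) (u := u) (q := q) (by rw [hfac, hg]) hcase'
    have hVR : (-1 : ℝ) ^ (q + 1) * (v : ℝ) ^ (2 * (q + 1)) = (V : ℝ) ^ n := by
      have : ((V : ℝ)) ^ n = (-1) ^ (q + 1) * (v : ℝ) ^ (2 * (q + 1)) := by exact_mod_cast hVn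
      exact this.symm
    rw [hVR] at h1
    have hvv : (v : ℝ) ^ (2 * (q + 1)) = |(V : ℝ)| ^ n := by
      rw [hVabs, pow_mul]
    rw [hvv] at h1
    push_cast at h1 ⊢
    have hu0R : (u : ℝ) ≠ 0 := by exact_mod_cast hu0
    have hv0R : (v : ℝ) ≠ 0 := by exact_mod_cast hv0
    have hV0 : 0 < |(V : ℝ)| ^ n := by
      rw [hVabs]
      positivity
    have hVpos : 0 < |(V : ℝ)| := by
      rw [abs_pos]
      intro h0
      rw [h0, abs_zero, zero_pow hn0] at hV0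
      exact lt_irrefl _ hV0
    set R : ℝ := 2 * ((q : ℝ) + 1) + 1 with hR
    have hRpos : 0 < R := by positivity
    have huvR : 4 * R ^ 2 * (u : ℝ) ^ 2 ≤ (v : ℝ) ^ 2 := by
      have h2 : (2 * R * |(u : ℝ)|) ^ 2 ≤ |(v : ℝ)| ^ 2 := by
        gcongr
      rw [sq_abs] at h2
      calc _ = (2 * R * |(u : ℝ)|) ^ 2 := by rw [mul_pow, sq_abs]; ring
        _ ≤ _ := h2
    -- same sign
    have hclose : |(Y : ℝ) ^ n - (V : ℝ) ^ n| < |(V : ℝ)| ^ n := by
      have h2 : |(Y : ℝ) ^ n - (V : ℝ) ^ n| * (v : ℝ) ^ 2 < |(V : ℝ)| ^ n * (v : ℝ) ^ 2 := by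
        calc _ ≤ R ^ 2 * (u : ℝ) ^ 2 * |(V : ℝ)| ^ n := h1
          _ < (v : ℝ) ^ 2 * |(V : ℝ)| ^ n := by
            have : R ^ 2 * (u : ℝ) ^ 2 < (v : ℝ) ^ 2 := by
              have : 0 < R ^ 2 * (u : ℝ) ^ 2 := by positivity
              linarith
            gcongr
          _ = _ := by ring
      exact lt_of_mul_lt_mul_right h2 (by positivity)
    have hsign : 0 < (Y : ℝ) * V := by
      by_contra hneg
      push Not at hneg
      have h2 : ((Y : ℝ) ^ n) * ((V : ℝ) ^ n) ≤ 0 := by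
        rw [← mul_pow]
        exact hn.pow_nonpos hneg
      have h3 : |(V : ℝ)| ^ n ≤ |(Y : ℝ) ^ n - (V : ℝ) ^ n| := by
        rw [← abs_pow]
        rcases le_total 0 ((V : ℝ) ^ n) with h4 | h4
        · have h5 : (Y : ℝ) ^ n ≤ 0 := by
            rcases h4.eq_or_lt with h6 | h6
            · rw [← abs_pow, ← h6, abs_zero] at hV0
              exact absurd hV0 (lt_irrefl _)
            · by_contra h7
              push Not at h7
              have := mul_pos h7 h6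
              linarith
          rw [abs_of_nonneg h4, abs_sub_comm]
          refine le_trans ?_ (le_abs_self _)
          linarith
        · have h5 : 0 ≤ (Y : ℝ) ^ n := by
            rcases h4.eq_or_lt with h6 | h6
            · rw [← abs_pow, h6, abs_zero] at hV0
              exact absurd hV0 (lt_irrefl _)
            · by_contra h7
              push Not at h7
              have := mul_pos_of_neg_of_neg h7 h6
              linarith
          rw [abs_of_nonpos h4]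
          refine le_trans ?_ (le_abs_self _)
          linarith
      linarith
    have h2 := abs_pow_sub_ge hsign hn0
    have h3 : (D : ℝ) ^ 2 * |(V : ℝ)| ^ (n - 1) * (v : ℝ) ^ 2 ≤
        R ^ 2 * ((D : ℝ) ^ 2 * (E : ℝ) ^ 2) * |(V : ℝ)| ^ n := by
      calc (D : ℝ) ^ 2 * |(V : ℝ)| ^ (n - 1) * (v : ℝ) ^ 2
          ≤ |(Y : ℝ) - V| * |(V : ℝ)| ^ (n - 1) * (v : ℝ) ^ 2 := by gcongr
        _ ≤ |(Y : ℝ) ^ n - (V : ℝ) ^ n| * (v : ℝ) ^ 2 := by gcongr
        _ ≤ R ^ 2 * (u : ℝ) ^ 2 * |(V : ℝ)| ^ n := h1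
        _ = _ := by rw [hu2]
    have h4 : (v : ℝ) ^ 2 ≤ R ^ 2 * (E : ℝ) ^ 2 * |(V : ℝ)| := by
      have h5 : |(V : ℝ)| ^ n = |(V : ℝ)| * |(V : ℝ)| ^ (n - 1) := by
        rw [← pow_succ']
        congr 1
        omega
      rw [h5] at h3
      have h6 : (D : ℝ) ^ 2 * |(V : ℝ)| ^ (n - 1) * (v : ℝ) ^ 2 ≤
          (D : ℝ) ^ 2 * |(V : ℝ)| ^ (n - 1) * (R ^ 2 * (E : ℝ) ^ 2 * |(V : ℝ)|) := by
        calc _ ≤ _ := h3
          _ = _ := by ring
      exact le_of_mul_le_mul_left h6 (by positivity)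
    have hR1 : 1 ≤ R := by
      rw [hR]
      have : (0 : ℝ) ≤ q := Nat.cast_nonneg q
      linarith
    have h5 : (z : ℝ) ≤ 2 * (v : ℝ) ^ 2 := by
      have hR2 : 1 ≤ R ^ 2 := by nlinarith
      rw [hzR2]
      nlinarith [sq_nonneg (u : ℝ), mul_nonneg (sub_nonneg.2 hR2) (sq_nonneg (u : ℝ))]
    calc (z : ℝ) ≤ 2 * (v : ℝ) ^ 2 := h5
      _ ≤ 2 * (R ^ 2 * (E : ℝ) ^ 2 * |(V : ℝ)|) := by gcongr
      _ ≤ 2 * (R ^ 2 * (E : ℝ) ^ 2 * ζ) := by gcongr
      _ ≤ 16 * R ^ 2 * (E : ℝ) ^ 2 * ζ := by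
        have : 0 ≤ R ^ 2 * (E : ℝ) ^ 2 * ζ := by positivity
        linarith
  · push Not at hcase
    set R : ℝ := 2 * (k : ℝ) + 1 with hR
    have hR3 : 3 ≤ R := by
      rw [hR]
      linarith
    have h1 : (D : ℝ) ^ 2 ≤ 3 * ζ := by
      calc (D : ℝ) ^ 2 ≤ |(Y : ℝ) - V| := hle
        _ ≤ |(Y : ℝ)| + |(V : ℝ)| := abs_sub _ _
        _ ≤ 2 * ζ + ζ := by gcongr
        _ = _ := by ring
    have h2 : (v : ℝ) ^ 2 ≤ 4 * R ^ 2 * (u : ℝ) ^ 2 := by
      have h3 : |(v : ℝ)| ^ 2 ≤ (2 * R * |(u : ℝ)|) ^ 2 := by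
        gcongr
      rw [sq_abs] at h3
      calc _ ≤ _ := h3
        _ = _ := by rw [mul_pow, sq_abs]; ring
    calc (z : ℝ) ≤ (1 + 4 * R ^ 2) * (u : ℝ) ^ 2 := by
          rw [hzR2]
          linarith
      _ = (1 + 4 * R ^ 2) * ((D : ℝ) ^ 2 * (E : ℝ) ^ 2) := by rw [hu2]
      _ ≤ (1 + 4 * R ^ 2) * (3 * ζ * (E : ℝ) ^ 2) := by gcongr
      _ = (3 + 12 * R ^ 2) * (ζ * (E : ℝ) ^ 2) := by ring
      _ ≤ (16 * R ^ 2) * (ζ * (E : ℝ) ^ 2) := by
          gcongr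
          nlinarith
      _ = _ := by ring

end Pool.Agent.U792.G2
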