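import Mathlib
import Pool.Agent.U792.G2.Main

/-!
`x ^ 2 + y ^ (2 n) = z ^ r` with `r ≤ n`: some prime factor `l` of `x` has `gcd (n, l (l - 1)) > 1`.
-/

set_option autoImplicit false

namespace Pool.Agent.U792.G2


theorem size_diff0 {u v F : ℤ} {q : ℕ}
    (hF : v * F = ((⟨u, v⟩ : GaussianInt) ^ (2 * (q + 1) + 1)).im) :
    |(v : ℝ)| * |((F : ℝ) - (-1) ^ (q + 1) * (v : ℝ) ^ (2 * (q + 1)))| ≤
      (q + 1) * (2 * q + 3) * (u : ℝ) ^ 2 * (|(v : ℝ)| + |(u : ℝ)|) ^ (2 * q + 1) := by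
  have h1 : ((v * F : ℤ) : ℝ) = (((u : ℂ) + (v : ℂ) * Complex.I) ^ (2 * (q + 1) + 1)).im := by
    rw [hF, toC_im]
  have h2 := second_order ((v : ℂ) * Complex.I) (u : ℂ) (2 * q + 1)
  have e0 : 2 * q + 1 + 2 = 2 * (q + 1) + 1 := by ring
  have e0' : 2 * q + 1 + 1 = 2 * (q + 1) := by ring
  rw [e0, e0'] at h2
  have e1 : ((v : ℂ) * Complex.I) ^ (2 * (q + 1)) = (((-1) ^ (q + 1) * (v : ℝ) ^ (2 * (q + 1)) : ℝ) : ℂ) := by
    rw [mul_pow, pow_mul Complex.I, Complex.I_sq]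
    push_cast
    ring
  have e2 : ((v : ℂ) * Complex.I) ^ (2 * (q + 1) + 1) =
      (((-1) ^ (q + 1) * (v : ℝ) ^ (2 * (q + 1) + 1) : ℝ) : ℂ) * Complex.I := by
    rw [pow_succ ((v : ℂ) * Complex.I), e1]
    push_cast
    ring
  have h3 := (Complex.abs_im_le_norm _).trans h2
  have h4 : (((v : ℂ) * Complex.I + (u : ℂ)) ^ (2 * (q + 1) + 1) -
      ((v : ℂ) * Complex.I) ^ (2 * (q + 1) + 1) -
      ((2 * q + 1 : ℕ) + 2) * ((v : ℂ) * Complex.I) ^ (2 * (q + 1)) * (u : ℂ)).im =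
      (v : ℝ) * ((F : ℝ) - (-1) ^ (q + 1) * (v : ℝ) ^ (2 * (q + 1))) := by
    have e3 : (((2 * q + 1 : ℕ) : ℂ) + 2) * ((v : ℂ) * Complex.I) ^ (2 * (q + 1)) * (u : ℂ) =
        ((((2 * q + 1 : ℕ) + 2 : ℝ) * ((-1) ^ (q + 1) * (v : ℝ) ^ (2 * (q + 1))) * (u : ℝ) : ℝ) : ℂ) := by
      rw [e1]
      push_cast
      ring
    rw [e3, e2, Complex.sub_im, Complex.sub_im, Complex.ofReal_im, add_comm ((v : ℂ) * Complex.I),
      ← h1, Complex.mul_I_im, Complex.ofReal_re]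
    push_cast
    ring
  rw [h4] at h3
  have e5 : ‖(v : ℂ) * Complex.I‖ = |(v : ℝ)| := by
    rw [norm_mul, Complex.norm_I, mul_one, Complex.norm_intCast]
  have e6 : ‖(u : ℂ)‖ = |(u : ℝ)| := Complex.norm_intCast u
  rw [e5, e6, abs_mul] at h3
  refine h3.trans (le_of_eq ?_)
  rw [sq_abs]
  push_cast
  ring

/-- any two real numbers, odd exponent -/
theorem abs_pow_sub_ge' (a b : ℝ) {n : ℕ} (hn : Odd n) :
    |a - b| * |b| ^ (n - 1) ≤ 2 * |a ^ n - b ^ n| := by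
  have hn0 : n ≠ 0 := by
    rintro rfl
    simp at hn
  rcases lt_or_ge 0 (a * b) with h | h
  · have := abs_pow_sub_ge h hn0
    have h2 := abs_nonneg (a ^ n - b ^ n)
    linarith
  · have h1 : |a ^ n - b ^ n| = |a| ^ n + |b| ^ n := by
      have h2 : a ^ n * b ^ n ≤ 0 := by
        rw [← mul_pow]
        exact hn.pow_nonpos h
      rw [← abs_pow, ← abs_pow]
      rcases le_total 0 (a ^ n) with h3 | h3
      · rcases le_total 0 (b ^ n) with h4 | h4
        · have h5 : a ^ n * b ^ n = 0 := le_antisymm h2 (mul_nonneg h3 h4)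
          rcases mul_eq_zero.1 h5 with h6 | h6
          · rw [h6, zero_sub, abs_neg, abs_zero, zero_add]
          · rw [h6, sub_zero, abs_zero, add_zero]
        · rw [abs_of_nonneg h3, abs_of_nonpos h4, abs_of_nonneg (by linarith)]
          ring
      · rcases le_total 0 (b ^ n) with h4 | h4
        · rw [abs_of_nonpos h3, abs_of_nonneg h4, abs_of_nonpos (by linarith)]
          ring
        · have h5 : a ^ n * b ^ n = 0 := le_antisymm h2 (mul_nonneg_of_nonpos_of_nonpos h3 h4)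
          rcases mul_eq_zero.1 h5 with h6 | h6
          · rw [h6, zero_sub, abs_neg, abs_zero, zero_add]
          · rw [h6, sub_zero, abs_zero, add_zero]
    rw [h1]
    obtain ⟨m, rfl⟩ := Nat.exists_eq_succ_of_ne_zero hn0
    rw [Nat.succ_eq_add_one, Nat.add_sub_cancel]
    have ha := abs_nonneg a
    have hb := abs_nonneg b
    have h5 : |a - b| ≤ |a| + |b| := abs_sub _ _
    have h6 : |a| * |b| ^ m ≤ |a| ^ (m + 1) + |b| ^ (m + 1) := by
      rcases le_total |a| |b| with h7 | h7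
      · calc |a| * |b| ^ m ≤ |b| * |b| ^ m := by gcongr
          _ = |b| ^ (m + 1) := by rw [pow_succ']
          _ ≤ _ := by
            have : 0 ≤ |a| ^ (m + 1) := by positivity
            linarith
      · calc |a| * |b| ^ m ≤ |a| * |a| ^ m := by gcongr
          _ = |a| ^ (m + 1) := by rw [pow_succ']
          _ ≤ _ := by
            have : 0 ≤ |b| ^ (m + 1) := by positivity
            linarith
    calc |a - b| * |b| ^ m ≤ (|a| + |b|) * |b| ^ m := by gcongr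
      _ = |a| * |b| ^ m + |b| ^ (m + 1) := by rw [pow_succ']; ring
      _ ≤ (|a| ^ (m + 1) + |b| ^ (m + 1)) + |b| ^ (m + 1) := by gcongr
      _ ≤ _ := by
        have : 0 ≤ |a| ^ (m + 1) := by positivity
        linarith

theorem num1 (k : ℕ) (hk : 1 ≤ k) : (8 : ℝ) * (2 * k - 1) ≤ 3 * 2 ^ (k + 1) := by
  induction k, hk using Nat.le_induction with
  | base => norm_num
  | succ m hm ih =>
    have h1 : (1 : ℝ) ≤ m := by exact_mod_cast hm
    rcases Nat.eq_or_lt_of_le hm with h2 | h2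
    · rw [← h2]
      norm_num
    · have h3 : (2 : ℝ) ≤ m := by exact_mod_cast h2
      rw [pow_succ]
      push_cast
      have h4 : (16 : ℝ) ≤ 3 * 2 ^ (m + 1) := by
        have : (2 : ℝ) ^ 3 ≤ 2 ^ (m + 1) := pow_le_pow_right₀ (by norm_num) (by omega)
        linarith
      linarith

theorem num2 (k : ℕ) (hk : 1 ≤ k) : (k : ℝ) * (2 * k + 1) < 4 ^ k := by
  induction k, hk using Nat.le_induction with
  | base => norm_num
  | succ m hm ih =>
    have h1 : (1 : ℝ) ≤ m := by exact_mod_cast hm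
    rw [pow_succ]
    push_cast
    nlinarith

theorem num3 (k : ℕ) : 2 * k + 1 ≤ 2 ^ (k + 1) := by
  induction k with
  | zero => norm_num
  | succ m ih =>
    rw [pow_succ]
    have : 1 ≤ 2 ^ (m + 1) := Nat.one_le_two_pow
    omega

/-- Odd `r ≤ n` (so `r < n` or `r = n`), coprime `x`, `y`, `r` prime to `y`, `|y| ≥ 2`: a prime
factor `l` of `x` has `gcd (n, l (l - 1)) > 1`. -/
theorem crit {n k : ℕ} (hn : Odd n) (hk : 1 ≤ k) (hkn : 2 * k + 1 ≤ n) {x y z : ℤ}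
    (hxy : IsCoprime x y) (hy : 2 ≤ |y|)
    (hry : IsCoprime ((2 * k + 1 : ℕ) : ℤ) y) (h : x ^ 2 + y ^ (2 * n) = z ^ (2 * k + 1)) :
    ∃ l : ℕ, l.Prime ∧ (l : ℤ) ∣ x ∧ 1 < Nat.gcd n (l * (l - 1)) := by
  by_contra hnot
  push Not at hnot
  obtain ⟨u, v, Y, W, hg, hz, huv, hvW, hfac, hco, hux, hmod⟩ := shape hn hk hxy hry h
  have hn0 : n ≠ 0 := by omega
  have hy0 : y ≠ 0 := by
    rintro rfl
    simp at hy
  have hx : x ≠ 0 := by
    rintro rfl
    have h1 := isCoprime_zero_left.1 hxy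
    rw [Int.isUnit_iff] at h1
    rcases h1 with rfl | rfl <;> simp at hy
  have hu0 : u ≠ 0 := by
    rintro rfl
    exact hx (zero_dvd_iff.1 hux)
  have hv0 : v ≠ 0 := by
    rintro rfl
    rw [zero_mul] at hfac
    exact hy0 (pow_eq_zero_iff hn0 |>.1 hfac.symm)
  set V : ℤ := (-1) ^ k * W ^ (2 * k) with hV
  have hsn : ((-1 : ℤ) ^ k) ^ n = (-1) ^ k := by
    rw [← pow_mul, mul_comm, pow_mul, hn.neg_one_pow]
  have hVn : V ^ n = (-1) ^ k * v ^ (2 * k) := by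
    rw [hV, mul_pow, hsn, hvW, ← pow_mul, ← pow_mul, mul_comm n]
  rw [← hVn] at hmod
  set D : ℕ := u.natAbs with hDdef
  have hD : ∀ l : ℕ, l.Prime → l ∣ D → Nat.Coprime (l * (l - 1)) n := by
    intro l hl hld
    have h1 : (l : ℤ) ∣ x := (Int.natCast_dvd.2 hld).trans hux
    have h2 := hnot l hl h1
    have h3 : 0 < Nat.gcd n (l * (l - 1)) := Nat.gcd_pos_of_pos_left _ (Nat.pos_of_ne_zero hn0)
    exact Nat.Coprime.symm (by unfold Nat.Coprime; omega)
  have hD0 : D ≠ 0 := Int.natAbs_ne_zero.2 hu0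
  have hDu : (D : ℤ) ∣ u := Int.natCast_dvd.2 dvd_rfl
  have huW : IsCoprime u W := by
    rw [hvW] at huv
    exact (IsCoprime.pow_right_iff (by omega)).1 huv
  have huV : IsCoprime u V := by
    rw [hV]
    refine IsCoprime.mul_right ?_ huW.pow_right
    exact (isCoprime_one_right.neg_right).pow_right
  have huY : IsCoprime u Y := by
    have h1 : IsCoprime u (V ^ n) := huV.pow_right
    obtain ⟨c, hc⟩ := hmod
    have h2 : Y ^ n = V ^ n + u * (u * c) := by linear_combination hc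
    have h3 := h1.add_mul_left_right (u * c)
    rw [← h2] at h3
    exact (IsCoprime.pow_right_iff (by omega)).1 h3
  have hD2Y : IsCoprime ((D ^ 2 : ℕ) : ℤ) Y := by
    push_cast
    exact (IsCoprime.of_isCoprime_of_dvd_left huY hDu).pow_left
  have hD2V : IsCoprime ((D ^ 2 : ℕ) : ℤ) V := by
    push_cast
    exact (IsCoprime.of_isCoprime_of_dvd_left huV hDu).pow_left
  have hD2 : ((D ^ 2 : ℕ) : ℤ) ∣ Y - V := by
    refine dvd_sub_of_dvd_pow_sub (by positivity) (totient_coprime hD) hD2Y hD2V ?_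
    push_cast
    exact (pow_dvd_pow_of_dvd hDu 2).trans hmod
  have hDsq : ((D ^ 2 : ℕ) : ℤ) = u ^ 2 := by
    rw [hDdef]
    push_cast
    exact sq_abs u
  rw [hDsq] at hD2
  have hne : Y - V ≠ 0 := by
    intro h0
    have h1 : Y = V := sub_eq_zero.1 h0
    have h2 : v ∣ Y ^ n := by
      rw [h1, hVn]
      exact Dvd.dvd.mul_left (dvd_pow_self v (by omega)) _
    have h3 : IsUnit v := hco.isUnit_of_dvd' dvd_rfl h2
    have h4 : IsUnit (Y ^ n) := by
      rw [h1, hVn]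
      exact ((isUnit_one.neg).pow k).mul (h3.pow _)
    have h5 : IsUnit (y ^ n) := by
      rw [← hfac]
      exact h3.mul h4
    have h6 : IsUnit y := (isUnit_pow_iff hn0).1 h5
    rw [Int.isUnit_iff] at h6
    rcases h6 with rfl | rfl <;> simp at hy
  have hle : (u : ℝ) ^ 2 ≤ |(Y : ℝ) - V| := by
    have h1 := Int.le_of_dvd (abs_pos.2 hne) ((dvd_abs _ _).2 hD2)
    have h2 : ((u ^ 2 : ℤ) : ℝ) ≤ ((|Y - V| : ℤ) : ℝ) := by exact_mod_cast h1
    push_cast at h2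
    exact h2
  -- sizes
  have hF := size_F (F := Y ^ n) (k := k) (u := u) hv0 (by rw [hfac, hg])
  push_cast at hF
  have hVabs : |(V : ℝ)| = |(W : ℝ)| ^ (2 * k) := by
    rw [hV]
    push_cast
    rw [abs_mul, abs_pow, abs_neg, abs_one, one_pow, one_mul, abs_pow]
  have hvW' : |(v : ℝ)| = |(W : ℝ)| ^ n := by
    rw [hvW]
    push_cast
    rw [abs_pow]
  have hu1 : (1 : ℝ) ≤ |(u : ℝ)| := by
    have : 1 ≤ |u| := Int.one_le_abs hu0
    exact_mod_cast this
  have hv1 : (1 : ℝ) ≤ |(v : ℝ)| := by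
    have : 1 ≤ |v| := Int.one_le_abs hv0
    exact_mod_cast this
  have h2n : ((2 * (k : ℝ) + 1)) * 2 ^ k ≤ 2 ^ n := by
    have h1 := num3 k
    have h2 : (2 * (k : ℝ) + 1) ≤ 2 ^ (k + 1) := by exact_mod_cast h1
    calc ((2 * (k : ℝ) + 1)) * 2 ^ k ≤ 2 ^ (k + 1) * 2 ^ k := by gcongr
      _ = 2 ^ (2 * k + 1) := by rw [← pow_add]; congr 1; ring
      _ ≤ 2 ^ n := pow_le_pow_right₀ (by norm_num) hkn
  -- a bound for `|Y|` given `z ≤ 2 m ^ 2`
  have hYgen : ∀ m : ℝ, 0 ≤ m → (u : ℝ) ^ 2 + (v : ℝ) ^ 2 ≤ 2 * m ^ 2 →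
      |(Y : ℝ)| ^ n ≤ 2 ^ n * (m ^ 2) ^ k := by
    intro m hm h1
    rw [← abs_pow]
    calc |(Y : ℝ) ^ n| ≤ (2 * k + 1) * ((u : ℝ) ^ 2 + (v : ℝ) ^ 2) ^ k := hF
      _ ≤ (2 * k + 1) * (2 * m ^ 2) ^ k := by gcongr
      _ = ((2 * k + 1) * 2 ^ k) * (m ^ 2) ^ k := by rw [mul_pow]; ring
      _ ≤ _ := by gcongr
  rcases le_or_gt |(v : ℝ)| |(u : ℝ)| with hcase | hcase
  · -- `|v| ≤ |u|`
    have hsum : (u : ℝ) ^ 2 + (v : ℝ) ^ 2 ≤ 2 * |(u : ℝ)| ^ 2 := by
      have : |(v : ℝ)| ^ 2 ≤ |(u : ℝ)| ^ 2 := by gcongr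
      rw [sq_abs, sq_abs] at this
      rw [sq_abs]
      linarith
    have h1 := hYgen |(u : ℝ)| (abs_nonneg _) hsum
    have h2 : |(V : ℝ)| ^ n ≤ (|(u : ℝ)| ^ 2) ^ k := by
      rw [hVabs, ← pow_mul, mul_comm, pow_mul, ← hvW', ← pow_mul]
      gcongr
    -- `a ^ (2n) ≤ 3 ^ n a ^ (2k)`
    have h3 : (|(u : ℝ)| ^ 2) ^ n ≤ 3 ^ n * (|(u : ℝ)| ^ 2) ^ k := by
      have hroot : ∃ s : ℝ, 0 ≤ s ∧ s ^ n = (|(u : ℝ)| ^ 2) ^ k := by
        refine ⟨((|(u : ℝ)| ^ 2) ^ k) ^ ((n : ℝ)⁻¹), by positivity, ?_⟩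
        exact Real.rpow_inv_natCast_pow (by positivity) hn0
      obtain ⟨s, hs0, hs⟩ := hroot
      rw [← hs] at h1 h2 ⊢
      have h4 : |(Y : ℝ)| ≤ 2 * s := by
        refine le_of_pow_le_pow_left₀ hn0 (by positivity) ?_
        rw [mul_pow]
        exact h1
      have h5 : |(V : ℝ)| ≤ s := le_of_pow_le_pow_left₀ hn0 hs0 h2
      have h6 : |(u : ℝ)| ^ 2 ≤ 3 * s := by
        rw [sq_abs]
        calc _ ≤ _ := hle
          _ ≤ |(Y : ℝ)| + |(V : ℝ)| := abs_sub _ _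
          _ ≤ _ := by linarith
      rw [← mul_pow]
      gcongr
    have h4 : |(u : ℝ)| < 3 := by
      by_contra h5
      push Not at h5
      have h6 : (|(u : ℝ)| ^ 2) ^ (n - k) ≤ 3 ^ n := by
        have h7 : (|(u : ℝ)| ^ 2) ^ n = (|(u : ℝ)| ^ 2) ^ (n - k) * (|(u : ℝ)| ^ 2) ^ k := by
          rw [← pow_add]
          congr 1
          omega
        rw [h7] at h3
        exact le_of_mul_le_mul_right h3 (by positivity)
      have h8 : (3 : ℝ) ^ (2 * (n - k)) ≤ 3 ^ n := by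
        calc (3 : ℝ) ^ (2 * (n - k)) ≤ |(u : ℝ)| ^ (2 * (n - k)) := by gcongr
          _ = (|(u : ℝ)| ^ 2) ^ (n - k) := by rw [pow_mul]
          _ ≤ _ := h6
      have h9 := (pow_le_pow_iff_right₀ (by norm_num : (1 : ℝ) < 3)).1 h8
      omega
    have hua : |u| < 3 := by exact_mod_cast h4
    have hva : |v| ≤ |u| := by exact_mod_cast hcase
    have hzodd : Odd z := odd_of_sq_add (r := 2 * k + 1) (by omega) (hxy.pow_right (n := n))
      (by rw [← h, ← pow_mul, mul_comm n 2])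
    have hu1' : 1 ≤ |u| := Int.one_le_abs hu0
    have hv1' : 1 ≤ |v| := Int.one_le_abs hv0
    have hv1u2 : |v| = 1 ∧ |u| = 2 := by
      rw [hz, ← sq_abs u, ← sq_abs v] at hzodd
      have hcop : IsCoprime |u| |v| := by
        rcases abs_choice u with h5 | h5 <;> rcases abs_choice v with h6 | h6 <;> rw [h5, h6]
        · exact huv
        · exact huv.neg_right
        · exact huv.neg_left
        · exact huv.neg_neg
      generalize |u| = a at *
      generalize |v| = b at *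
      have ha : a = 1 ∨ a = 2 := by omega
      have hb : b = 1 ∨ b = 2 := by omega
      rcases ha with rfl | rfl <;> rcases hb with rfl | rfl
      · exfalso
        revert hzodd
        decide
      · omega
      · exact ⟨rfl, rfl⟩
      · exfalso
        revert hzodd
        decide
    have hWabs : |W| = 1 := by
      have h5 : |W| ^ n = 1 := by
        rw [← abs_pow, ← hvW]
        exact hv1u2.1
      exact (pow_eq_one_iff_of_nonneg (abs_nonneg W) hn0).1 h5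
    have hVabs1 : |V| = 1 := by
      rw [hV, abs_mul, abs_pow, abs_neg, abs_one, one_pow, one_mul, abs_pow, hWabs, one_pow]
    have hu4 : u ^ 2 = 4 := by
      rw [← sq_abs, hv1u2.2]
      norm_num
    have hv1s : v ^ 2 = 1 := by
      rw [← sq_abs, hv1u2.1]
      norm_num
    have hY3 : 3 ≤ |Y| := by
      rw [hu4] at hD2
      obtain ⟨c, hc⟩ := hD2
      have hc0 : c ≠ 0 := by
        rintro rfl
        apply hne
        rw [hc, mul_zero]
      rcases abs_eq (by norm_num : (0 : ℤ) ≤ 1) |>.1 hVabs1 with h5 | h5 <;>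
        rw [le_abs] <;> omega
    have hz5 : z = 5 := by
      rw [hz, hu4, hv1s]
      norm_num
    have hfin : (9 : ℤ) ^ n ≤ 5 ^ (2 * k + 1) := by
      calc (9 : ℤ) ^ n = (3 ^ 2) ^ n := by norm_num
        _ = 3 ^ (n * 2) := by rw [← pow_mul, mul_comm]
        _ ≤ |Y| ^ (n * 2) := by gcongr
        _ = (Y ^ n) ^ 2 := by rw [pow_mul, ← abs_pow, sq_abs]
        _ = (v * Y ^ n) ^ 2 := by rw [mul_pow, hv1s, one_mul]
        _ = y ^ (2 * n) := by rw [hfac, ← pow_mul, mul_comm]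
        _ ≤ x ^ 2 + y ^ (2 * n) := by nlinarith [sq_nonneg x]
        _ = 5 ^ (2 * k + 1) := by rw [h, hz5]
    have hfin2 : (5 : ℤ) ^ (2 * k + 1) ≤ 5 ^ n := pow_le_pow_right₀ (by norm_num) hkn
    have hfin3 : (5 : ℤ) ^ n < 9 ^ n := pow_lt_pow_left₀ (by norm_num) (by norm_num) hn0
    omega
  · -- `|u| < |v|`
    have hvz : 2 ≤ |v| := by
      have h1 : |u| < |v| := by exact_mod_cast hcase
      have h2 : 1 ≤ |u| := Int.one_le_abs hu0
      omega
    have hW2 : 2 ≤ |W| := by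
      by_contra h1
      push Not at h1
      have h2 : |v| ≤ 1 := by
        rw [hvW, abs_pow]
        exact pow_le_one₀ (abs_nonneg _) (by omega)
      omega
    have hw2 : (2 : ℝ) ≤ |(W : ℝ)| := by exact_mod_cast hW2
    set w : ℝ := |(W : ℝ)| with hw
    set a : ℝ := |(u : ℝ)| with ha
    set t : ℝ := |(v : ℝ)| with ht
    have hw0 : 0 < w := by linarith
    have ht0 : 0 < t := by linarith
    have ha0 : 0 < a := by linarith
    have hsum : (u : ℝ) ^ 2 + (v : ℝ) ^ 2 ≤ 2 * t ^ 2 := by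
      have : a ^ 2 ≤ t ^ 2 := by gcongr
      rw [ha, sq_abs] at this
      rw [ht, sq_abs] at this ⊢
      linarith
    have h1 := hYgen t ht0.le hsum
    have hY2 : |(Y : ℝ)| ≤ 2 * w ^ (2 * k) := by
      refine le_of_pow_le_pow_left₀ hn0 (by positivity) ?_
      refine h1.trans (le_of_eq ?_)
      rw [mul_pow, hvW', ← pow_mul, ← pow_mul, ← pow_mul]
      congr 2
      ring
    have ha2 : a ^ 2 ≤ 3 * w ^ (2 * k) := by
      rw [ha, sq_abs]
      calc _ ≤ _ := hle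
        _ ≤ |(Y : ℝ)| + |(V : ℝ)| := abs_sub _ _
        _ ≤ _ := by rw [hVabs]; linarith
    have h4k : (4 : ℝ) ^ (k + 1) ≤ w ^ (2 * (n - k)) := by
      calc (4 : ℝ) ^ (k + 1) = 2 ^ (2 * (k + 1)) := by rw [pow_mul]; norm_num
        _ ≤ w ^ (2 * (k + 1)) := by gcongr
        _ ≤ w ^ (2 * (n - k)) := pow_le_pow_right₀ (by linarith) (by omega)
    have ht2 : t ^ 2 = w ^ (2 * k) * w ^ (2 * (n - k)) := by
      rw [hvW', ← pow_add, ← pow_mul]
      congr 1
      omega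
    have hat : 4 ^ (k + 1) * a ^ 2 ≤ 3 * t ^ 2 := by
      calc 4 ^ (k + 1) * a ^ 2 ≤ w ^ (2 * (n - k)) * (3 * w ^ (2 * k)) := by gcongr
        _ = _ := by rw [ht2]; ring
    obtain ⟨q, rfl⟩ : ∃ q, k = q + 1 := ⟨k - 1, by omega⟩
    have h2 := size_diff0 (F := Y ^ n) (u := u) (q := q) (by rw [hfac, hg])
    have hVR : (-1 : ℝ) ^ (q + 1) * (v : ℝ) ^ (2 * (q + 1)) = (V : ℝ) ^ n := by
      have : ((V : ℝ)) ^ n = (-1) ^ (q + 1) * (v : ℝ) ^ (2 * (q + 1)) := by exact_mod_cast hVn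
      exact this.symm
    rw [hVR, ← ht, ← ha] at h2
    push_cast at h2
    have hlog : (2 * (q : ℝ) + 1) * (a / t) ≤ Real.log 2 := by
      have h3 : ((2 * (q : ℝ) + 1) * (a / t)) ^ 2 ≤ 27 / 64 := by
        rw [mul_pow, div_pow, ← mul_div_assoc, div_le_div_iff₀ (by positivity) (by norm_num)]
        have h5 := num1 (q + 1) (by omega)
        push_cast at h5
        have h6 : (8 * (2 * (q : ℝ) + 1)) ^ 2 ≤ (3 * 2 ^ (q + 1 + 1)) ^ 2 := by
          have h7 : 8 * (2 * (q : ℝ) + 1) ≤ 3 * 2 ^ (q + 1 + 1) := by linarith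
          gcongr
        have h8 : (3 * (2 : ℝ) ^ (q + 1 + 1)) ^ 2 = 9 * 4 ^ (q + 1 + 1) := by
          rw [mul_pow, ← pow_mul, mul_comm (q + 1 + 1) 2, pow_mul]
          norm_num
        rw [h8] at h6
        calc (2 * (q : ℝ) + 1) ^ 2 * a ^ 2 * 64 = (8 * (2 * (q : ℝ) + 1)) ^ 2 * a ^ 2 := by ring
          _ ≤ (9 * 4 ^ (q + 1 + 1)) * a ^ 2 := by gcongr
          _ = 9 * (4 ^ (q + 1 + 1) * a ^ 2) := by ring
          _ ≤ 9 * (3 * t ^ 2) := by gcongr
          _ = _ := by ring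
      have h4 : (2 * (q : ℝ) + 1) * (a / t) ≤ 0.66 := by
        refine abs_le_of_sq_le_sq' ?_ (by norm_num) |>.2
        calc _ ≤ _ := h3
          _ ≤ _ := by norm_num
      have := Real.log_two_gt_d9
      linarith
    have hpow : (t + a) ^ (2 * q + 1) ≤ 2 * t ^ (2 * q + 1) := by
      have h3 : t + a ≤ t * Real.exp (a / t) := by
        have h4 := Real.add_one_le_exp (a / t)
        calc t + a = t * (a / t + 1) := by field_simp; ring
          _ ≤ _ := by gcongr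
      calc (t + a) ^ (2 * q + 1) ≤ (t * Real.exp (a / t)) ^ (2 * q + 1) := by gcongr
        _ = t ^ (2 * q + 1) * Real.exp (((2 * q + 1 : ℕ) : ℝ) * (a / t)) := by
            rw [mul_pow, ← Real.exp_nat_mul]
        _ ≤ t ^ (2 * q + 1) * Real.exp (Real.log 2) := by
            gcongr
            push_cast
            exact hlog
        _ = _ := by
            rw [Real.exp_log (by norm_num)]
            ring
    have h3 := abs_pow_sub_ge' (Y : ℝ) (V : ℝ) hn
    rw [hVabs] at h3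
    have h4 : a ^ 2 * (t * (w ^ (2 * (q + 1))) ^ (n - 1)) ≤
        a ^ 2 * (4 * ((q + 1) * (2 * q + 3)) * t ^ (2 * q + 1)) := by
      have h5 : a ^ 2 ≤ |(Y : ℝ) - V| := by
        rw [ha, sq_abs]
        exact hle
      calc a ^ 2 * (t * (w ^ (2 * (q + 1))) ^ (n - 1))
          = t * (a ^ 2 * (w ^ (2 * (q + 1))) ^ (n - 1)) := by ring
        _ ≤ t * (|(Y : ℝ) - V| * (w ^ (2 * (q + 1))) ^ (n - 1)) := by gcongr
        _ ≤ t * (2 * |(Y : ℝ) ^ n - (V : ℝ) ^ n|) := by gcongr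
        _ = 2 * (t * |(Y : ℝ) ^ n - (V : ℝ) ^ n|) := by ring
        _ ≤ 2 * ((q + 1) * (2 * q + 3) * (u : ℝ) ^ 2 * (t + a) ^ (2 * q + 1)) := by gcongr
        _ ≤ 2 * ((q + 1) * (2 * q + 3) * (u : ℝ) ^ 2 * (2 * t ^ (2 * q + 1))) := by gcongr
        _ = _ := by
            rw [← sq_abs (u : ℝ), ← ha]
            ring
    have h5 := le_of_mul_le_mul_left h4 (by positivity)
    have h6 : t * (w ^ (2 * (q + 1))) ^ (n - 1) = w ^ (2 * (n - (q + 1))) * t ^ (2 * q + 1) := by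
      rw [hvW', ← pow_mul, ← pow_mul, ← pow_add, ← pow_add]
      congr 1
      obtain ⟨m, rfl⟩ : ∃ m, n = (q + 1) + m := ⟨n - (q + 1), by omega⟩
      have e1 : q + 1 + m - 1 = q + m := by omega
      have e2 : q + 1 + m - (q + 1) = m := by omega
      rw [e1, e2]
      ring
    rw [h6] at h5
    have h7 := le_of_mul_le_mul_right h5 (by positivity)
    have h8 := num2 (q + 1) (by omega)
    have h9 := h4k.trans h7
    rw [pow_succ] at h9
    push_cast at h8
    linarith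

end Pool.Agent.U792.G2
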