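import Mathlib
import Pool.Agent.U792.G2.Main

/-!
The final form for `x ^ 2 + y ^ (2 n) = z ^ r`.
-/

set_option autoImplicit false

namespace Pool.Agent.U792.G2

theorem final {n r : ℕ} (hn : Odd n) (hn3 : 3 ≤ n) (hr : Odd r) (hr3 : 3 ≤ r) (hrn : r ≤ 2 * n + 1)
    {x y z : ℤ} (hxy : IsCoprime x y) (hx : x ≠ 0) (hy : 2 ≤ |y|)
    (hry : IsCoprime (r : ℤ) y) (h : x ^ 2 + y ^ (2 * n) = z ^ r) :
    ∃ E : ℕ, (E : ℤ) ∣ x ∧ (∀ l : ℕ, l.Prime → l ∣ E → 1 < Nat.gcd n (l * (l - 1))) ∧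
      (z : ℝ) ^ ((1 : ℝ) / 2 - ((r : ℝ) - 1) / (4 * n)) ≤ 4 * r * E := by
  obtain ⟨k, rfl⟩ := hr
  obtain ⟨E, h1, h2, h3, h4⟩ := main_aux hn hn3 (by omega) (by omega) hxy hx hy hry h
  refine ⟨E, h1, h2, ?_⟩
  have hz : (0 : ℝ) < z := by exact_mod_cast h3
  have hn0 : (n : ℝ) ≠ 0 := by
    have : n ≠ 0 := by omega
    exact_mod_cast this
  have h5 : (z : ℝ) ^ (1 - (k : ℝ) / n) ≤ (4 * (2 * k + 1) * (E : ℝ)) ^ 2 := by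
    rw [Real.rpow_sub hz, Real.rpow_one, div_le_iff₀ (Real.rpow_pos_of_pos hz _)]
    calc (z : ℝ) ≤ _ := h4
      _ = _ := by ring
  have h6 : (z : ℝ) ^ ((1 : ℝ) / 2 - (((2 * k + 1 : ℕ) : ℝ) - 1) / (4 * n)) =
      Real.sqrt ((z : ℝ) ^ (1 - (k : ℝ) / n)) := by
    rw [Real.sqrt_eq_rpow, ← Real.rpow_mul hz.le]
    congr 1
    push_cast
    field_simp
    ring
  rw [h6]
  refine (Real.sqrt_le_sqrt h5).trans ?_
  rw [Real.sqrt_sq (by positivity)]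
  push_cast
  exact le_rfl

end Pool.Agent.U792.G2
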